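import Pool.Agent.V11210.EP.FourMain
import Pool.Agent.V11210.EP.Rat

/-!
# `π + e` and `π - e` at every scale
-/

set_option autoImplicit false

namespace Pool.Agent.Results.MP_363d4d_nt.EveryScale

open Polynomial

/-- `α` is an algebraic number of degree at most `d` and height at most `H`: a root of an irreducible
integer polynomial of degree at most `d` with coefficients of absolute value at most `H`. -/
def IsAlg (d : ℕ) (H : ℝ) (α : ℂ) : Prop :=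
  ∃ A : ℤ[X], Irreducible A ∧ A.natDegree ≤ d ∧ (∀ j, |(A.coeff j : ℝ)| ≤ H) ∧ aeval α A = 0

/-- the number `e` -/
noncomputable def e : ℝ := Real.exp 1

open Pool.Agent.V11210.EP in
lemma alg (d : ℕ) (T : ℝ) : ∃ κ c : ℝ, 0 < c ∧ ∀ t : ℂ, ‖t‖ ≤ T → ∀ H : ℝ, 1 ≤ H →
    ∀ α β : ℂ, IsAlg d H α → IsAlg d H β → c * H ^ (-κ) ≤ ‖t + e - α‖ + ‖t - e - β‖ := by
  obtain ⟨κ, c, _, hc, h⟩ := pair01 d (|T| + ‖E‖) (by positivity)
  refine ⟨κ, c, hc, fun t ht H hH α β hα hβ => ?_⟩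
  have h1 := h t ((norm_add_le _ _).trans (by linarith [le_abs_self T])) H hH α β hα hβ
  have hH0 : 0 < H := by linarith
  rw [Real.rpow_neg hH0.le, ← div_eq_mul_inv, div_le_iff₀ (by positivity), mul_comm]
  exact h1

open Pool.Agent.V11210.EP in
lemma explicit (T η : ℝ) (hη : 0 < η) : ∃ c : ℝ, 0 < c ∧ ∀ t : ℝ, |t| ≤ T →
    ∀ (p r : ℤ) (q s : ℕ), 0 < q → 0 < s →
      c * ((q : ℝ) * s) ^ (-(2 + η)) ≤ |t + e - (p : ℝ) / q| + |t - e - (r : ℝ) / s| := by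
  obtain ⟨c, hc, h⟩ := r01 (|T| + e) η (add_nonneg (abs_nonneg T) (Real.exp_pos 1).le) hη
  refine ⟨c, hc, fun t ht p r q s hq hs => h t ?_ ?_ p r q s hq hs⟩
  · refine (abs_add_le _ _).trans ?_
    rw [abs_of_pos (Real.exp_pos 1)]
    unfold e
    linarith [le_abs_self T]
  · refine (abs_sub _ _).trans ?_
    rw [abs_of_pos (Real.exp_pos 1)]
    unfold e
    linarith [le_abs_self T]

/-- **`π + e` and `π - e` at every scale.**  (1) For every `d` and `T` there are `κ`, `c > 0` such that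
for all complex `t` with `‖t‖ ≤ T` (for instance `t = π`), all `H ≥ 1` and all algebraic numbers
`α`, `β` of degree at most `d` and height at most `H` the distances from `t + e` to `α` and from `t - e`
to `β` are not both less than `(c / 2) H ^ (-κ)`.  (2) For rational numbers, with an explicit exponent.
(3) Good approximations to the one number and to the other one have very different denominators.
(4) At every scale `Q` one of the two numbers has no rational approximation with denominator at most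
`Q` and error less than `c Q ^ (-(4 + η))`. -/
theorem result :
    (∀ (d : ℕ) (T : ℝ), ∃ κ c : ℝ, 0 < c ∧ ∀ t : ℂ, ‖t‖ ≤ T → ∀ H : ℝ, 1 ≤ H →
      ∀ α β : ℂ, IsAlg d H α → IsAlg d H β → c * H ^ (-κ) ≤ ‖t + e - α‖ + ‖t - e - β‖) ∧
    (∀ T η : ℝ, 0 < η → ∃ c : ℝ, 0 < c ∧ ∀ t : ℝ, |t| ≤ T → ∀ (p r : ℤ) (q s : ℕ), 0 < q → 0 < s →
      c * ((q : ℝ) * s) ^ (-(2 + η)) ≤ |t + e - (p : ℝ) / q| + |t - e - (r : ℝ) / s|) ∧
    (∀ T η κ : ℝ, 0 < η → 0 < κ → ∃ c : ℝ, 0 < c ∧ ∀ t : ℝ, |t| ≤ T →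
      ∀ σ : ℝ, (σ = 1 ∨ σ = -1) → ∀ (p r : ℤ) (q s : ℕ), 0 < q → q ≤ s →
      |t + σ * e - (p : ℝ) / q| ≤ (q : ℝ) ^ (-κ) → |t - σ * e - (r : ℝ) / s| ≤ (s : ℝ) ^ (-κ) →
      c * (q : ℝ) ^ ((κ - 2 - η) / (2 + η)) ≤ s) ∧
    (∀ T η : ℝ, 0 < η → ∃ c : ℝ, 0 < c ∧ ∀ t : ℝ, |t| ≤ T → ∀ Q : ℝ, 1 ≤ Q → ∃ σ : ℝ,
      (σ = 1 ∨ σ = -1) ∧ ∀ (p : ℤ) (q : ℕ), 0 < q → (q : ℝ) ≤ Q →
        c * Q ^ (-(4 + η)) ≤ |t + σ * e - (p : ℝ) / q|) := by
  refine ⟨alg, explicit, fun T η κ hη hκ => ?_, fun T η hη => ?_⟩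
  · obtain ⟨c, hc, h⟩ := explicit T η hη
    have h2η : 0 < 2 + η := by linarith
    refine ⟨(c / 2) ^ (1 / (2 + η)), by positivity, fun t ht σ hσ p r q s hq hqs h1 h2 => ?_⟩
    have hs : 0 < s := by omega
    have hq0 : (0 : ℝ) < q := by exact_mod_cast hq
    have hs0 : (0 : ℝ) < s := by exact_mod_cast hs
    have hqsR : (q : ℝ) ≤ s := by exact_mod_cast hqs
    have h3 : c * ((q : ℝ) * s) ^ (-(2 + η)) ≤ (q : ℝ) ^ (-κ) + (s : ℝ) ^ (-κ) := by
      rcases hσ with rfl | rfl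
      · rw [one_mul] at h1 h2
        exact (h t ht p r q s hq hs).trans (add_le_add h1 h2)
      · rw [neg_one_mul] at h1 h2
        rw [sub_neg_eq_add] at h2
        rw [← sub_eq_add_neg] at h1
        have h4 := h t ht r p s q hs hq
        rw [mul_comm (s : ℝ)] at h4
        calc _ ≤ _ := h4
          _ ≤ (s : ℝ) ^ (-κ) + (q : ℝ) ^ (-κ) := add_le_add h2 h1
          _ = _ := add_comm _ _
    have h4 : (s : ℝ) ^ (-κ) ≤ (q : ℝ) ^ (-κ) :=
      Real.rpow_le_rpow_of_nonpos hq0 hqsR (by linarith)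
    have h5 : c / 2 * (q : ℝ) ^ (κ - 2 - η) ≤ (s : ℝ) ^ (2 + η) := by
      have h6 : c * ((q : ℝ) * s) ^ (-(2 + η)) ≤ 2 * (q : ℝ) ^ (-κ) := by linarith
      rw [Real.mul_rpow hq0.le hs0.le] at h6
      have h7 : (q : ℝ) ^ (-(2 + η)) * (q : ℝ) ^ κ = (q : ℝ) ^ (κ - 2 - η) := by
        rw [← Real.rpow_add hq0]
        congr 1
        ring
      have h8 : (s : ℝ) ^ (-(2 + η)) * (s : ℝ) ^ (2 + η) = 1 := by
        rw [← Real.rpow_add hs0]
        simp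
      have h9 : (q : ℝ) ^ (-κ) * (q : ℝ) ^ κ = 1 := by
        rw [← Real.rpow_add hq0]
        simp
      have hpos : 0 ≤ (s : ℝ) ^ (2 + η) * (q : ℝ) ^ κ := by positivity
      have h10 := mul_le_mul_of_nonneg_right h6 hpos
      have e1 : c * ((q : ℝ) ^ (-(2 + η)) * (s : ℝ) ^ (-(2 + η))) *
          ((s : ℝ) ^ (2 + η) * (q : ℝ) ^ κ) = c * (q : ℝ) ^ (κ - 2 - η) := by
        rw [← h7]
        linear_combination (c * (q : ℝ) ^ (-(2 + η)) * (q : ℝ) ^ κ) * h8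
      have e2 : 2 * (q : ℝ) ^ (-κ) * ((s : ℝ) ^ (2 + η) * (q : ℝ) ^ κ) = 2 * (s : ℝ) ^ (2 + η) := by
        linear_combination (2 * (s : ℝ) ^ (2 + η)) * h9
      rw [e1, e2] at h10
      linarith
    have h6 := Real.rpow_le_rpow (by positivity) h5 (z := 1 / (2 + η)) (by positivity)
    rw [Real.mul_rpow (by positivity) (by positivity), ← Real.rpow_mul hq0.le,
      ← Real.rpow_mul hs0.le, mul_one_div, mul_one_div, div_self h2η.ne', Real.rpow_one] at h6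
    exact h6
  · obtain ⟨c, hc, h⟩ := explicit T (η / 2) (by positivity)
    refine ⟨c / 2, by positivity, fun t ht Q hQ => ?_⟩
    by_contra hcon
    push Not at hcon
    obtain ⟨p, q, hq, hqQ, h1⟩ := hcon 1 (Or.inl rfl)
    obtain ⟨r, s, hs, hsQ, h2⟩ := hcon (-1) (Or.inr rfl)
    have hq0 : (0 : ℝ) < q := by exact_mod_cast hq
    have hs0 : (0 : ℝ) < s := by exact_mod_cast hs
    have hQ0 : 0 < Q := by linarith
    have h3 := h t ht p r q s hq hs
    rw [one_mul] at h1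
    rw [neg_one_mul, ← sub_eq_add_neg] at h2
    have h4 : (Q * Q) ^ (-(2 + η / 2)) ≤ ((q : ℝ) * s) ^ (-(2 + η / 2)) :=
      Real.rpow_le_rpow_of_nonpos (by positivity) (by gcongr) (by linarith)
    have h5 : (Q * Q) ^ (-(2 + η / 2)) = Q ^ (-(4 + η)) := by
      rw [Real.mul_rpow hQ0.le hQ0.le, ← Real.rpow_add hQ0]
      congr 1
      ring
    rw [h5] at h4
    have h6 : c * Q ^ (-(4 + η)) ≤ c * ((q : ℝ) * s) ^ (-(2 + η / 2)) := by gcongr
    linarith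

end Pool.Agent.Results.MP_363d4d_nt.EveryScale
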