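import Mathlib
import Pool.Agent.V1139.LP.LineDigits

/-!
# Digits of `π + e` and of polynomials in `e` and `π`

`N_b(x; L)` is the least order of a linear recurrence over `ℚ` for the first `L` digits of `x` in
base `b`. A number `x` is *low* at the scale `Λ` with constants `ν, K` if `N_b(x; L) log b < ν Λ` for
some base `b` and some `L` with `K log b ≤ Λ ≤ L log b` (`Small ν K Λ x`). Let `d ≥ 1`, `ε > 0` and
`ν = 1/(d+1)² - ε`; the constants `K, δ > 0` depend only on `d`, `ε` (and on a bound for `|t|`).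

(1) Let `t` be a real number and let `(A + B e + C t) / E` be low at the scale `Λ`, with integers
`A, B, C ≠ 0, E ≥ 1` of absolute value at most `exp (δ Λ)`. Then there is one line `B X + C Y = r`
with `r` rational such that every polynomial `P` of total degree at most `d` with integer
coefficients at most `exp (δ Λ)`, for which `P(e, t) / E'` is low at the scale `Λ` for some
`E' ≤ exp (δ Λ)`, is constant on this line.

(2) Let `t = π` and let `σ = 1` or `σ = -1`. At every scale `Λ` at which `π + σ e` is low, there is no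
low number `P(e, π) / E'`, where `P` has total degree `k` with `1 ≤ k ≤ d` and coefficients
at most `exp (δ Λ)`, `1 ≤ E' ≤ exp (δ Λ)`, and the homogeneous part of degree `k` of `P` is not
divisible by `Y + σ X`.

(3) For example, at every scale at which `π + e` is low, all the numbers `e ^ i π ^ j` with
`1 ≤ i + j ≤ d` and all the numbers `(π - e) ^ k` with `1 ≤ k ≤ d` are not low; and
the same with `π + e` and `π - e` interchanged.
-/

set_option autoImplicit false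

namespace Pool.Agent.Results.MP_363d4d_nt.LinesAtOneScale

open Polynomial Finset

/-- the `i`-th digit of `x` after the point in base `b` -/
noncomputable def digit (b : ℕ) (x : ℝ) (i : ℕ) : ℤ := ⌊x * (b : ℝ) ^ i⌋ % (b : ℤ)

/-- The terms `s_1, …, s_L` satisfy the linear recurrence
`s_(i+m) = c_0 s_i + … + c_(m-1) s_(i+m-1)` for `1 ≤ i ≤ L - m`. -/
def Recurrence (s : ℕ → ℤ) (c : ℕ → ℚ) (L m : ℕ) : Prop :=
  ∀ i : ℕ, 1 ≤ i → i + m ≤ L → (s (i + m) : ℚ) = ∑ j ∈ range m, c j * (s (i + j) : ℚ)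

/-- the linear complexity of the first `L` digits of `x` in base `b` -/
noncomputable def complexity (b : ℕ) (x : ℝ) (L : ℕ) : ℕ :=
  sInf {m | ∃ c : ℕ → ℚ, Recurrence (digit b x) c L m}

/-- the linear complexity of `x` is smaller than `ν Λ / log b` at the scale `Λ`, in some base `b` with
`K log b ≤ Λ` -/
def Small (ν K Λ x : ℝ) : Prop :=
  ∃ b L : ℕ, 2 ≤ b ∧ K * Real.log b ≤ Λ ∧ Λ ≤ L * Real.log b ∧
    complexity b x L * Real.log b < ν * Λ

/-- the value `P(u, v)`; `P` is a polynomial in `Y` whose coefficients are polynomials in `X` -/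
noncomputable def value {S : Type} [CommRing S] (u v : S) (P : ℤ[X][X]) : S :=
  P.eval₂ (aeval u : ℤ[X] →ₐ[ℤ] S).toRingHom v

/-- the total degree of `P` is at most `d` -/
def TotalDegree (d : ℕ) (P : ℤ[X][X]) : Prop :=
  P.natDegree ≤ d ∧ ∀ j ≤ d, (P.coeff j).natDegree ≤ d - j

/-- the absolute values of the coefficients of `P` are at most `h` -/
def Height (h : ℝ) (P : ℤ[X][X]) : Prop := ∀ j i, |((P.coeff j).coeff i : ℝ)| ≤ h

/-- the value at `X = 1`, `Y = y` of the homogeneous part of degree `k` of `P` -/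
noncomputable def top (k : ℕ) (y : ℤ) (P : ℤ[X][X]) : ℤ := ∑ j ∈ range (k + 1), (P.coeff j).coeff (k - j) * y ^ j

/-- A polynomial which is constant on the line `σ X + Y = r` has `top k (-σ) P = 0`. -/
lemma top_eq_zero (k : ℕ) (hk : 1 ≤ k) (σ : ℤ) (P : ℤ[X][X]) (hP : TotalDegree k P) (r s : ℚ)
    (h : ∀ u v : ℂ, ((σ : ℤ) : ℂ) * u + ((1 : ℤ) : ℂ) * v = r → value u v P = s) :
    top k (-σ) P = 0 := by
  obtain ⟨l, hl⟩ : ∃ l : ℂ[X], l = C (r : ℂ) + C (-(σ : ℂ)) * X := ⟨_, rfl⟩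
  obtain ⟨Q, hQ⟩ : ∃ Q : ℂ[X], Q = ∑ j ∈ range (k + 1),
    ((P.coeff j).map (Int.castRingHom ℂ)) * l ^ j := ⟨_, rfl⟩
  have hld : l.natDegree ≤ 1 := by
    rw [hl]
    exact (natDegree_C_add (R := ℂ)).le.trans ((natDegree_C_mul_le _ X).trans natDegree_X_le)
  have hl1 : l.coeff 1 = -(σ : ℂ) := by
    rw [hl, coeff_add, coeff_C, coeff_C_mul, coeff_X]
    simp
  have hev : ∀ u : ℂ, Q.eval u = s := by
    intro u
    rw [← h u (r - σ * u) (by push_cast; ring), hQ, eval_finsetSum]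
    unfold value
    rw [eval₂_eq_sum_range' _ (show P.natDegree < k + 1 by have := hP.1; omega)]
    refine Finset.sum_congr rfl fun j _ => ?_
    rw [eval_mul, eval_pow, hl]
    congr 1
    · rw [eval_map]
      rfl
    · simp only [eval_add, eval_C, eval_mul, eval_X]
      ring
  have hQs : Q = C (s : ℂ) := by
    apply Polynomial.funext
    intro u
    rw [hev u, eval_C]
  have hco : Q.coeff k = ((top k (-σ) P : ℤ) : ℂ) := by
    rw [hQ, finsetSum_coeff]
    unfold top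
    push_cast
    refine Finset.sum_congr rfl fun j hj => ?_
    rw [mem_range] at hj
    have h1 : ((P.coeff j).map (Int.castRingHom ℂ)).natDegree ≤ k - j :=
      natDegree_map_le.trans (hP.2 j (by omega))
    have h2 : (l ^ j).natDegree ≤ j := by
      refine natDegree_pow_le.trans ?_
      calc j * l.natDegree ≤ j * 1 := Nat.mul_le_mul_left _ hld
        _ = j := mul_one j
    have h3 := coeff_mul_add_eq_of_natDegree_le h1 h2
    rw [Nat.sub_add_cancel (by omega : j ≤ k)] at h3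
    have h4 := coeff_pow_of_natDegree_le (m := j) hld
    rw [mul_one] at h4
    rw [h3, h4, hl1, coeff_map]
    simp
  rw [hQs, coeff_C, if_neg (by omega)] at hco
  exact_mod_cast hco.symm

/-- the monomial `X ^ i Y ^ j` -/
noncomputable def mon (i j : ℕ) : ℤ[X][X] := C (X ^ i) * X ^ j

lemma mon_coeff (i j n m : ℕ) : ((mon i j).coeff n).coeff m = if n = j ∧ m = i then 1 else 0 := by
  unfold mon
  rw [coeff_C_mul, coeff_X_pow]
  by_cases h : n = j
  · rw [if_pos h, mul_one, coeff_X_pow]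
    by_cases h2 : m = i
    · rw [if_pos h2, if_pos ⟨h, h2⟩]
    · rw [if_neg h2, if_neg (fun h3 => h2 h3.2)]
  · rw [if_neg h, mul_zero, coeff_zero, if_neg (fun h3 => h h3.1)]

lemma mon_td (i j : ℕ) : TotalDegree (i + j) (mon i j) := by
  constructor
  · unfold mon
    refine (natDegree_C_mul_le _ _).trans ?_
    rw [natDegree_X_pow]
    omega
  · intro n hn
    unfold mon
    rw [coeff_C_mul, coeff_X_pow]
    split_ifs with h
    · rw [mul_one, natDegree_X_pow]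
      omega
    · simp

lemma mon_ht (i j : ℕ) (h : ℝ) (hh : 1 ≤ h) : Height h (mon i j) := by
  intro n m
  rw [mon_coeff]
  split_ifs <;> simp <;> linarith

lemma mon_top (i j : ℕ) (y : ℤ) : top (i + j) y (mon i j) = y ^ j := by
  unfold top
  rw [Finset.sum_eq_single j]
  · rw [mon_coeff, if_pos ⟨rfl, by omega⟩, one_mul]
  · intro n hn hne
    rw [mon_coeff, if_neg (fun h => hne h.1), zero_mul]
  · intro h
    exact absurd (mem_range.2 (by omega)) h

lemma mon_value (i j : ℕ) (u v : ℝ) : value u v (mon i j) = u ^ i * v ^ j := by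
  unfold value mon
  rw [eval₂_mul, eval₂_C, eval₂_pow, eval₂_X]
  simp

/-- the polynomial `(Y - σ X) ^ k` -/
noncomputable def lin (σ : ℤ) (k : ℕ) : ℤ[X][X] := (X + C (C (-σ) * X)) ^ k

lemma lin_coeff (σ : ℤ) (k j m : ℕ) : ((lin σ k).coeff j).coeff m =
    if m = k - j then (-σ) ^ (k - j) * (k.choose j : ℤ) else 0 := by
  unfold lin
  rw [coeff_X_add_C_pow, mul_pow, ← C_pow, mul_assoc, coeff_C_mul, ← C_eq_natCast, mul_comm (X ^ (k - j)),
    coeff_C_mul, coeff_X_pow]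
  split_ifs
  · simp
  · simp

lemma lin_td (σ : ℤ) (k : ℕ) : TotalDegree k (lin σ k) := by
  constructor
  · unfold lin
    refine natDegree_pow_le.trans ?_
    calc k * (X + C (C (-σ) * X) : ℤ[X][X]).natDegree ≤ k * 1 :=
          Nat.mul_le_mul_left _ (natDegree_X_add_C _).le
      _ = k := mul_one k
  · intro j _
    rw [natDegree_le_iff_coeff_eq_zero]
    intro m hm
    rw [lin_coeff, if_neg (by omega)]

lemma lin_ht (σ : ℤ) (hσ : σ = 1 ∨ σ = -1) (k : ℕ) : Height (2 ^ k) (lin σ k) := by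
  intro j m
  rw [lin_coeff]
  split_ifs
  · push_cast
    rw [abs_mul, abs_pow]
    have h1 : |(-(σ : ℝ))| = 1 := by rcases hσ with rfl | rfl <;> simp
    rw [h1, one_pow, one_mul, Nat.abs_cast]
    exact_mod_cast Nat.choose_le_two_pow k j
  · simp

lemma lin_top (σ : ℤ) (k : ℕ) (y : ℤ) : top k y (lin σ k) = (y + (-σ)) ^ k := by
  unfold top
  rw [add_pow]
  refine Finset.sum_congr rfl fun j _ => ?_
  rw [lin_coeff, if_pos rfl]
  ring

lemma lin_value (σ : ℤ) (k : ℕ) (u v : ℝ) : value u v (lin σ k) = (v - σ * u) ^ k := by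
  unfold value lin
  rw [eval₂_pow, eval₂_add, eval₂_X, eval₂_C]
  simp [sub_eq_add_neg]

lemma small_mono {ν K K' Λ x : ℝ} (h : K ≤ K') (hs : Small ν K' Λ x) : Small ν K Λ x := by
  obtain ⟨b, L, hb, h1, h2⟩ := hs
  refine ⟨b, L, hb, ?_, h2⟩
  have hlb : 0 < Real.log b := Real.log_pos (by exact_mod_cast (by omega : 1 < b))
  exact (mul_le_mul_of_nonneg_right h hlb.le).trans h1

/-- **Lines at one scale.** See the text at the beginning of the file. -/
theorem result :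
    -- (1)
    (∀ d : ℕ, 1 ≤ d → ∀ T ε : ℝ, 1 ≤ T → 0 < ε → ∃ K δ : ℝ, 0 < K ∧ 0 < δ ∧
      ∀ t : ℝ, |t| ≤ T → ∀ (Λ : ℝ) (A B C' : ℤ) (E : ℕ), C' ≠ 0 →
      |(A : ℝ)| ≤ Real.exp (δ * Λ) → |(B : ℝ)| ≤ Real.exp (δ * Λ) →
      |(C' : ℝ)| ≤ Real.exp (δ * Λ) → 1 ≤ E → (E : ℝ) ≤ Real.exp (δ * Λ) →
      Small (1 / ((d : ℝ) + 1) ^ 2 - ε) K Λ ((A + B * Real.exp 1 + C' * t) / E) →
      ∃ r : ℚ, ∀ (P : ℤ[X][X]) (E' : ℕ), TotalDegree d P → Height (Real.exp (δ * Λ)) P → 1 ≤ E' →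
        (E' : ℝ) ≤ Real.exp (δ * Λ) →
        Small (1 / ((d : ℝ) + 1) ^ 2 - ε) K Λ (value (Real.exp 1) t P / E') →
        ∃ s : ℚ, ∀ u v : ℂ, (B : ℂ) * u + C' * v = r → value u v P = s) ∧
    -- (2)
    (∀ d : ℕ, 1 ≤ d → ∀ ε : ℝ, 0 < ε → ∃ K δ : ℝ, 0 < K ∧ 0 < δ ∧
      ∀ (Λ : ℝ) (σ : ℤ), (σ = 1 ∨ σ = -1) →
      Small (1 / ((d : ℝ) + 1) ^ 2 - ε) K Λ (Real.pi + σ * Real.exp 1) →
      ∀ (k : ℕ) (P : ℤ[X][X]) (E' : ℕ), 1 ≤ k → k ≤ d → TotalDegree k P → top k (-σ) P ≠ 0 →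
        Height (Real.exp (δ * Λ)) P → 1 ≤ E' → (E' : ℝ) ≤ Real.exp (δ * Λ) →
        ¬ Small (1 / ((d : ℝ) + 1) ^ 2 - ε) K Λ (value (Real.exp 1) Real.pi P / E')) ∧
    -- (3)
    (∀ d : ℕ, 1 ≤ d → ∀ ε : ℝ, 0 < ε → ∃ K : ℝ, 0 < K ∧
      ∀ (Λ : ℝ) (σ : ℤ), (σ = 1 ∨ σ = -1) →
      Small (1 / ((d : ℝ) + 1) ^ 2 - ε) K Λ (Real.pi + σ * Real.exp 1) →
      (∀ i j : ℕ, 1 ≤ i + j → i + j ≤ d →
        ¬ Small (1 / ((d : ℝ) + 1) ^ 2 - ε) K Λ (Real.exp 1 ^ i * Real.pi ^ j)) ∧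
      ∀ k : ℕ, 1 ≤ k → k ≤ d →
        ¬ Small (1 / ((d : ℝ) + 1) ^ 2 - ε) K Λ ((Real.pi - σ * Real.exp 1) ^ k)) := by
  have h1 := Pool.Agent.V1139.LP.digits_line
  have h2 : ∀ d : ℕ, 1 ≤ d → ∀ ε : ℝ, 0 < ε → ∃ K δ : ℝ, 0 < K ∧ 0 < δ ∧
      ∀ (Λ : ℝ) (σ : ℤ), (σ = 1 ∨ σ = -1) →
      Small (1 / ((d : ℝ) + 1) ^ 2 - ε) K Λ (Real.pi + σ * Real.exp 1) →
      ∀ (k : ℕ) (P : ℤ[X][X]) (E' : ℕ), 1 ≤ k → k ≤ d → TotalDegree k P → top k (-σ) P ≠ 0 →
        Height (Real.exp (δ * Λ)) P → 1 ≤ E' → (E' : ℝ) ≤ Real.exp (δ * Λ) →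
        ¬ Small (1 / ((d : ℝ) + 1) ^ 2 - ε) K Λ (value (Real.exp 1) Real.pi P / E') := by
    intro d hd ε hε
    obtain ⟨K, δ, hK, hδ, h⟩ := h1 d hd 4 ε (by norm_num) hε
    refine ⟨K, δ, hK, hδ, fun Λ σ hσ hs k P E' hk hkd hP ht hPH hE1 hE hs' => ?_⟩
    have hΛ : 0 ≤ Λ := by
      obtain ⟨b, L, hb, h1, _⟩ := hs
      have hlb : 0 < Real.log b := Real.log_pos (by exact_mod_cast (by omega : 1 < b))
      exact le_trans (by positivity) h1
    have hG : 1 ≤ Real.exp (δ * Λ) := Real.one_le_exp (by positivity)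
    have hpi : |Real.pi| ≤ 4 := by
      rw [abs_of_pos Real.pi_pos]
      exact Real.pi_le_four
    have e1 : (((0 : ℤ) : ℝ) + ((σ : ℤ) : ℝ) * Real.exp 1 + ((1 : ℤ) : ℝ) * Real.pi) / ((1 : ℕ) : ℝ) =
        Real.pi + σ * Real.exp 1 := by push_cast; ring
    obtain ⟨r, hr⟩ := h Real.pi hpi Λ 0 σ 1 1 one_ne_zero (by simp; linarith)
      (by rcases hσ with rfl | rfl <;> simpa using hG) (by simpa using hG) le_rfl
      (by simpa using hG) (by rw [e1]; exact hs)
    have hPd : TotalDegree d P := ⟨hP.1.trans hkd, fun j hj => by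
      by_cases h : j ≤ k
      · exact (hP.2 j h).trans (by omega)
      · rw [coeff_eq_zero_of_natDegree_lt (lt_of_le_of_lt hP.1 (by omega)), natDegree_zero]
        omega⟩
    obtain ⟨s, hs2⟩ := hr P E' hPd hPH hE1 hE hs'
    exact ht (top_eq_zero k hk σ P hP r s hs2)
  refine ⟨fun d hd T ε hT hε => h1 d hd T ε hT hε, h2, fun d hd ε hε => ?_⟩
  obtain ⟨K, δ, hK, hδ, h⟩ := h2 d hd ε hε
  refine ⟨max K (d / δ), lt_max_of_lt_left hK, fun Λ σ hσ hs => ?_⟩
  have hΛ : d / δ * Real.log 2 ≤ Λ := by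
    obtain ⟨b, L, hb, h1, _⟩ := hs
    have h2 : Real.log 2 ≤ Real.log b := Real.log_le_log (by norm_num) (by exact_mod_cast hb)
    have h3 : 0 ≤ (d : ℝ) / δ := by positivity
    have h4 : 0 ≤ Real.log b := (Real.log_nonneg (by norm_num)).trans h2
    calc (d : ℝ) / δ * Real.log 2 ≤ d / δ * Real.log b := mul_le_mul_of_nonneg_left h2 h3
      _ ≤ max K (d / δ) * Real.log b := mul_le_mul_of_nonneg_right (le_max_right _ _) h4
      _ ≤ Λ := h1
  have hG2 : (2 : ℝ) ^ d ≤ Real.exp (δ * Λ) := by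
    rw [← Real.exp_log (by norm_num : (0 : ℝ) < 2), ← Real.exp_nat_mul]
    apply Real.exp_le_exp.2
    have h1 := mul_le_mul_of_nonneg_left hΛ hδ.le
    have h2 : δ * (d / δ * Real.log 2) = d * Real.log 2 := by field_simp
    linarith
  have hG : 1 ≤ Real.exp (δ * Λ) := (one_le_pow₀ (by norm_num)).trans hG2
  have hs1 := small_mono (le_max_left K (d / δ)) hs
  have hσ0 : (-σ) ≠ 0 := by rcases hσ with rfl | rfl <;> norm_num
  refine ⟨fun i j hij1 hij hcon => ?_, fun k hk hkd hcon => ?_⟩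
  · refine h Λ σ hσ hs1 (i + j) (mon i j) 1 hij1 hij (mon_td i j) ?_ (mon_ht i j _ hG) le_rfl
      (by simpa using hG) ?_
    · rw [mon_top]
      exact pow_ne_zero _ hσ0
    · rw [mon_value, Nat.cast_one, div_one]
      exact small_mono (le_max_left K (d / δ)) hcon
  · refine h Λ σ hσ hs1 k (lin σ k) 1 hk hkd (lin_td σ k) ?_ (fun j m => ?_) le_rfl
      (by simpa using hG) ?_
    · rw [lin_top]
      exact pow_ne_zero _ (by rcases hσ with rfl | rfl <;> norm_num)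
    · exact (lin_ht σ hσ k j m).trans ((pow_le_pow_right₀ (by norm_num) hkd).trans hG2)
    · rw [lin_value, Nat.cast_one, div_one]
      exact small_mono (le_max_left K (d / δ)) hcon

end Pool.Agent.Results.MP_363d4d_nt.LinesAtOneScale
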