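import Mathlib
import Pool.Agent.V1189.DG.ShiftJoint

/-!
# Linear recurrences for the digits of the forms `x π + y e + z`, each in its own base

`N_b(x; L)` is the least order of a linear recurrence over `ℚ` for the first `L` digits of `x` in
base `b`. Let `t` be any real number, for example `π`, and let `k_1, …, k_n` be different positive
integers (for `n = 1`, `k_1 = 1` only the powers `1, e` occur). We consider the numbers
`x = A t + B + r_1 e ^ (k_1) + … + r_n e ^ (k_n)` with rational coefficients of height at most `H`.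

(1) For two such numbers `x, x'` with `A' r ≠ A r'` (for `n = 1`: not proportional modulo `ℚ`), all
bases `b, c` and all `L, M`
`(1/(n+1) - ε) min (L log b, M log c)`
`  ≤ (N_b(x; L) + C) log b + (N_c(x'; M) + C) log c + 2 (n+3) (n+2) log H`
with `C` depending only on `ε` and the `k_i`: not on `t`, `b`, `c`, `L`, `M`, `H`.

(2) At every scale `Λ` the numbers of height at most `exp (δ Λ)` with
`N_b(x; L) log b < (1/(2(n+1)) - ε) Λ` for some base `b` and some `L` with `K log b ≤ Λ ≤ L log b`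
all have the same direction: `A' r = A r'` for any two of them. (`K`, `δ` depend on `ε`, `k` only.)

(3) For `n = 1`: at every scale `Λ` there is at most one rational `r` of height at most `exp (δ Λ)`
such that `t + r e` has this property, with `1/4 - ε`. In particular (`r = 1, -1`, `t = π`) it does
not hold for both `π + e` and `π - e`.

(4) Digits in one base: joint `l`-error linear complexity and changes of digits.

Definitions of digits and complexities are those of the starting file `MP_a49cf6_nt.DigitRecurrences`.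
-/

set_option autoImplicit false

namespace Pool.Agent.Results.MP_363d4d_nt.OneDirection

open Finset

/-- the `i`-th digit of `x` after the point in base `b` -/
noncomputable def digit (b : ℕ) (x : ℝ) (i : ℕ) : ℤ := ⌊x * (b : ℝ) ^ i⌋ % (b : ℤ)

/-- The terms `s_1, …, s_L` satisfy the linear recurrence
`s_(i+m) = c_0 s_i + … + c_(m-1) s_(i+m-1)` for `1 ≤ i ≤ L - m`. -/
def Recurrence (s : ℕ → ℤ) (c : ℕ → ℚ) (L m : ℕ) : Prop :=
  ∀ i : ℕ, 1 ≤ i → i + m ≤ L → (s (i + m) : ℚ) = ∑ j ∈ range m, c j * (s (i + j) : ℚ)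

/-- the linear complexity of the first `L` digits of `x` in base `b` -/
noncomputable def complexity (b : ℕ) (x : ℝ) (L : ℕ) : ℕ :=
  sInf {m | ∃ c : ℕ → ℚ, Recurrence (digit b x) c L m}

/-- the joint `l`-error linear complexity of the first `L` digits of the numbers `x j` in base `b`:
the least order of a common recurrence for the first `L` terms of sequences of integers between `-b`
and `b` which agree with the digits of all the `x j` in all but at most `l` of the places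
`1, …, L` -/
noncomputable def jointComplexity {J : ℕ} (b : ℕ) (x : Fin J → ℝ) (l L : ℕ) : ℕ :=
  sInf {m | ∃ (s : Fin J → ℕ → ℤ) (c : ℕ → ℚ), (∀ j i, |s j i| ≤ b) ∧
    ((Icc 1 L).filter fun i => ∃ j, s j i ≠ digit b (x j) i).card ≤ l ∧
    ∀ j, Recurrence (s j) c L m}

/-- the function `m + C √((m+1) log (m+2))` -/
noncomputable def F (C : ℝ) (m : ℕ) : ℝ :=
  m + C * Real.sqrt (((m : ℝ) + 1) * Real.log ((m : ℝ) + 2))

/-- the number of `i ≤ M` with different `i`-th and `(i+1)`-st digits, for `x` or for `y` -/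
noncomputable def changes (b : ℕ) (x y : ℝ) (M : ℕ) : ℕ :=
  ((Icc 1 M).filter fun i =>
    digit b x i ≠ digit b x (i + 1) ∨ digit b y i ≠ digit b y (i + 1)).card

/-- numerator and denominator of `r` are at most `H` in absolute value -/
def Low (H : ℕ) (r : ℚ) : Prop := |r.num| ≤ H ∧ r.den ≤ H

/-- the number `A t + B + ∑ r_i e ^ (k_i)` -/
noncomputable def form {n : ℕ} (k : Fin n → ℕ) (t : ℝ) (A B : ℚ) (r : Fin n → ℚ) : ℝ :=
  A * t + B + ∑ i, (r i : ℝ) * Real.exp 1 ^ k i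

/-- the linear complexity of `x` is smaller than `ν Λ / log b` at the scale `Λ`, in some base `b` with
`K log b ≤ Λ` -/
def Small (ν K Λ x : ℝ) : Prop :=
  ∃ b L : ℕ, 2 ≤ b ∧ K * Real.log b ≤ Λ ∧ Λ ≤ L * Real.log b ∧
    complexity b x L * Real.log b < ν * Λ

/-- **One direction at every scale.** See the text at the beginning of the file. -/
theorem result :
    -- (1)
    (∀ n : ℕ, 1 ≤ n → ∀ k : Fin n → ℕ, Function.Injective k → (∀ i, k i ≠ 0) →
      ∀ ε : ℝ, 0 < ε → ∃ C : ℝ, 0 < C ∧ ∀ (t : ℝ) (H : ℕ), 1 ≤ H →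
      ∀ (A B A' B' : ℚ) (r r' : Fin n → ℚ),
        Low H A → Low H B → Low H A' → Low H B' → (∀ i, Low H (r i)) → (∀ i, Low H (r' i)) →
        (∃ i, A' * r i ≠ A * r' i) → ∀ b c : ℕ, 2 ≤ b → 2 ≤ c → ∀ L M : ℕ,
          (1 / ((n : ℝ) + 1) - ε) * min (L * Real.log b) (M * Real.log c) ≤
            ((complexity b (form k t A B r) L : ℝ) + C) * Real.log b +
              ((complexity c (form k t A' B' r') M : ℝ) + C) * Real.log c +
              2 * (n + 3) * (n + 2) * Real.log H) ∧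
    -- (2)
    (∀ n : ℕ, 1 ≤ n → ∀ k : Fin n → ℕ, Function.Injective k → (∀ i, k i ≠ 0) →
      ∀ ε : ℝ, 0 < ε → ∃ K δ : ℝ, 0 < K ∧ 0 < δ ∧ ∀ (t Λ : ℝ) (H : ℕ), (H : ℝ) ≤ Real.exp (δ * Λ) →
        ∀ (A B A' B' : ℚ) (r r' : Fin n → ℚ),
        Low H A → Low H B → Low H A' → Low H B' → (∀ i, Low H (r i)) → (∀ i, Low H (r' i)) →
        Small (1 / (2 * ((n : ℝ) + 1)) - ε) K Λ (form k t A B r) →
        Small (1 / (2 * ((n : ℝ) + 1)) - ε) K Λ (form k t A' B' r') →
        ∀ i, A' * r i = A * r' i) ∧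
    -- (3)
    ((∀ ε : ℝ, 0 < ε → ∃ K δ : ℝ, 0 < K ∧ 0 < δ ∧ ∀ (t Λ : ℝ) (H : ℕ),
      (H : ℝ) ≤ Real.exp (δ * Λ) →
        {r : ℚ | Low H r ∧ Small (1 / 4 - ε) K Λ (t + r * Real.exp 1)}.Subsingleton) ∧
      (∀ ε : ℝ, 0 < ε → ∃ K : ℝ, ∀ Λ : ℝ, ¬ (Small (1 / 4 - ε) K Λ (Real.pi + Real.exp 1) ∧
        Small (1 / 4 - ε) K Λ (Real.pi - Real.exp 1))) ∧
      ∀ ε : ℝ, 0 < ε → ∃ C : ℝ, 0 < C ∧ ∀ b c : ℕ, 2 ≤ b → 2 ≤ c → ∀ L M : ℕ,
        (1 / 2 - ε) * min (L * Real.log b) (M * Real.log c) ≤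
          ((complexity b (Real.pi + Real.exp 1) L : ℝ) + C) * Real.log b +
            ((complexity c (Real.pi - Real.exp 1) M : ℝ) + C) * Real.log c) ∧
    -- (4)
    (∀ n : ℕ, 1 ≤ n → ∀ k : Fin n → ℕ, Function.Injective k → (∀ i, k i ≠ 0) →
      ∀ H : ℕ, 1 ≤ H → ∀ μ : ℝ, (n : ℝ) + 1 < μ →
      ∃ C : ℝ, 0 < C ∧ ∀ (t : ℝ) (A B A' B' : ℚ) (r r' : Fin n → ℚ),
        Low H A → Low H B → Low H A' → Low H B' → (∀ i, Low H (r i)) → (∀ i, Low H (r' i)) →
        (∃ i, A' * r i ≠ A * r' i) → ∀ b : ℕ, 2 ≤ b →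
        (∀ l L : ℕ, (L : ℝ) ≤ (∑ m ∈ range (l + 1), μ ^ (m + 1)) *
          F C (jointComplexity b ![form k t A B r, form k t A' B' r'] l L)) ∧
        ∀ M : ℕ, 1 ≤ M → Real.log M / Real.log μ - C ≤
          changes b (form k t A B r) (form k t A' B' r') M) := by
  have hshift : ∀ (t : ℝ) (r : ℚ), Pool.Agent.V1189.DG.form (fun _ : Fin 1 => 1) t 1 0
      (fun _ => r) = t + r * Real.exp 1 := by
    intro t r
    rw [Pool.Agent.V1189.DG.form_one]
    push_cast
    ring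
  have h3 : ∀ ε : ℝ, 0 < ε → ∃ K δ : ℝ, 0 < K ∧ 0 < δ ∧ ∀ (t Λ : ℝ) (H : ℕ),
      (H : ℝ) ≤ Real.exp (δ * Λ) →
        {r : ℚ | Low H r ∧ Small (1 / 4 - ε) K Λ (t + r * Real.exp 1)}.Subsingleton := by
    intro ε hε
    obtain ⟨K, δ, hK, hδ, h⟩ := Pool.Agent.V1189.DG.unique 1 le_rfl (fun _ => 1)
      (fun i j _ => Subsingleton.elim i j) (fun _ => one_ne_zero) ε hε
    refine ⟨K, δ, hK, hδ, fun t Λ H hH r hr r' hr' => ?_⟩
    have hH1 : 1 ≤ H := by
      have h1 := hr.1.2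
      have h2 := r.den_pos
      omega
    obtain ⟨l1, l2, l3⟩ := Pool.Agent.V1189.DG.low_one H hH1
    have e : (1 : ℝ) / (2 * (((1 : ℕ) : ℝ) + 1)) - ε = 1 / 4 - ε := by norm_num
    have h4 := h t Λ H hH 1 0 1 0 (fun _ => r) (fun _ => r') l1 l3 l1 l3 (fun _ => hr.1)
      (fun _ => hr'.1) (by rw [hshift, e]; exact hr.2) (by rw [hshift, e]; exact hr'.2) 0
    simpa using h4
  refine ⟨fun n hn k hk hk0 ε hε => Pool.Agent.V1189.DG.form_linear n hn k hk hk0 ε hε,
    fun n hn k hk hk0 ε hε => Pool.Agent.V1189.DG.unique n hn k hk hk0 ε hε,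
    ⟨h3, fun ε hε => ?_, fun ε hε => Pool.Agent.V1189.DG.pi_linear ε hε⟩,
    fun n hn k hk hk0 H hH μ hμ => Pool.Agent.V1189.DG.form_joint n hn k hk hk0 H hH μ hμ⟩
  obtain ⟨K, δ, hK, hδ, h⟩ := h3 ε hε
  refine ⟨K, fun Λ hcon => ?_⟩
  have hΛ : 0 ≤ Λ := by
    obtain ⟨b, L, hb, h1, _⟩ := hcon.1
    have hlb : 0 < Real.log b := Real.log_pos (by exact_mod_cast (by omega : 1 < b))
    exact le_trans (by positivity) h1
  obtain ⟨l1, l2, _⟩ := Pool.Agent.V1189.DG.low_one 1 le_rfl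
  have h4 := h Real.pi Λ 1 (by
    rw [Nat.cast_one]; exact Real.one_le_exp (by positivity))
  have m1 : (1 : ℚ) ∈ {r : ℚ | Low 1 r ∧ Small (1 / 4 - ε) K Λ (Real.pi + r * Real.exp 1)} := by
    refine ⟨l1, ?_⟩
    rw [Rat.cast_one, one_mul]
    exact hcon.1
  have m2 : (-1 : ℚ) ∈ {r : ℚ | Low 1 r ∧ Small (1 / 4 - ε) K Λ (Real.pi + r * Real.exp 1)} := by
    refine ⟨l2, ?_⟩
    rw [Rat.cast_neg, Rat.cast_one, neg_one_mul, ← sub_eq_add_neg]
    exact hcon.2
  have h5 := h4 m1 m2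
  norm_num at h5

end Pool.Agent.Results.MP_363d4d_nt.OneDirection
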