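import Mathlib
import Pool.Agent.V11015.FS.TwoForms

/-!
# Finite-state machines cannot predict the digits of both `π + e` and `π - e`

A machine with finitely many states reads the digits of a number in some base one after the other and
announces before each digit a guess, which depends on its state only.

(1) Two machines, with `S` and `S'` states, read two numbers `(a t + r e + s) / d` and
`(a' t + r' e + s') / d'` (`t` any real number, for instance `π`; integral coefficients of size at
most `H`, the additive integers `s`, `s'` being arbitrary; `a' r ≠ a r'`), each number in its own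
base, `b` and `c`, up to the places `N` and `N'`. The total number of their wrong guesses is at least
`(log min (N log b, N' log c) - log (S log b + S' log c + log H)) / log (4 + η) - C`.

(2) One machine with `S` states reads the digits of both numbers at the same time in the same base
and guesses both of them. It is wrong at least `(log n - log (S + log H)) / log (2 + η) - C` times in
the first `n` steps.

The constant `C` depends only on `η > 0`. It depends neither on `t` nor on the numbers, the bases, the
machines.
-/

set_option autoImplicit false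

namespace Pool.Agent.Results.MP_363d4d_nt.PredictionSeveralNumbers

open Finset Pool.Agent

/-- the `i`-th digit of `x` after the point in base `b` -/
noncomputable def digit (b : ℕ) (x : ℝ) (i : ℕ) : ℤ := ⌊x * (b : ℝ) ^ i⌋ % (b : ℤ)

/-- A machine with the set of states `Q`: the transition function, the guess announced in each
state, and the initial state. -/
structure Machine (Q : Type) where
  next : Q → ℤ → Q
  guess : Q → ℤ
  start : Q

/-- The state of the machine after it has read the first `i` digits of `x` in base `b`. -/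
noncomputable def Machine.state {Q : Type} (M : Machine Q) (b : ℕ) (x : ℝ) : ℕ → Q
  | 0 => M.start
  | i + 1 => M.next (M.state b x i) (digit b x (i + 1))

/-- The number of the wrong guesses for the first `n` digits of `x` in base `b`: the guess for the
digit number `i + 1` is announced when the machine has read the first `i` digits. -/
noncomputable def Machine.errors {Q : Type} (M : Machine Q) (b : ℕ) (x : ℝ) (n : ℕ) : ℕ :=
  ((range n).filter (fun i => M.guess (M.state b x i) ≠ digit b x (i + 1))).card

/-- A machine which reads two digits in each step and guesses both of them. -/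
structure PairMachine (Q : Type) where
  next : Q → ℤ → ℤ → Q
  guess : Q → ℤ × ℤ
  start : Q

/-- The state of the machine after it has read the first `i` digits of `x` and of `y` in base `b`. -/
noncomputable def PairMachine.state {Q : Type} (M : PairMachine Q) (b : ℕ) (x y : ℝ) : ℕ → Q
  | 0 => M.start
  | i + 1 => M.next (M.state b x y i) (digit b x (i + 1)) (digit b y (i + 1))

/-- The number of the steps `i < n` in which at least one of the two guesses (for the digits number
`i + 1` of `x` and of `y`, announced after the first `i` digits of both) is wrong. -/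
noncomputable def PairMachine.errors {Q : Type} (M : PairMachine Q) (b : ℕ) (x y : ℝ) (n : ℕ) : ℕ :=
  ((range n).filter (fun i =>
    M.guess (M.state b x y i) ≠ (digit b x (i + 1), digit b y (i + 1)))).card

/-- The integers of a form `(a t + r e + s) / d`. -/
structure Form where
  a : ℤ
  r : ℤ
  s : ℤ
  d : ℕ

/-- the value of the form at `t` -/
noncomputable def Form.value (F : Form) (t : ℝ) : ℝ := (F.a * t + F.r * Real.exp 1 + F.s) / F.d

/-- the form has a positive denominator and size at most `H`; the additive integer is arbitrary -/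
def Form.Size (F : Form) (H : ℝ) : Prop :=
  |(F.a : ℝ)| ≤ H ∧ |(F.r : ℝ)| ≤ H ∧ 1 ≤ F.d ∧ (F.d : ℝ) ≤ H

/-- the linear parts are proportional -/
def Form.Parallel (F G : Form) : Prop := G.a * F.r = F.a * G.r

theorem state_eq {Q : Type} (M : Machine Q) (b : ℕ) (x : ℝ) (i : ℕ) :
    M.state b x i = V60.FSP.st M.next (V60.FSP.dg b x) M.start 0 i := by
  induction i with
  | zero => rfl
  | succ i ih =>
    rw [V60.FSP.st_step, ← ih, Nat.zero_add]
    rfl

theorem errors_eq {Q : Type} [Fintype Q] (M : Machine Q) (b : ℕ) (x : ℝ) (n : ℕ) :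
    M.errors b x n = V60.FSP.err M.next M.guess (V60.FSP.dg b x) M.start 0 n := by
  unfold Machine.errors V60.FSP.err
  congr 1
  apply Finset.filter_congr
  intro i _
  rw [state_eq, Nat.zero_add]
  rfl

/-- a machine for pairs of digits as a machine which reads one symbol -/
def code {Q : Type} (M : PairMachine Q) (b : ℕ) (q : Q) (z : ℤ) : Q :=
  M.next q (z % (b : ℤ)) (z / (b : ℤ))

/-- the guess of one symbol; a pair which is not a pair of digits becomes a wrong guess -/
def codeGuess {Q : Type} (M : PairMachine Q) (b : ℕ) (q : Q) : ℤ :=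
  if 0 ≤ (M.guess q).1 ∧ (M.guess q).1 < b then (M.guess q).1 + b * (M.guess q).2 else -1 - b * b

theorem pair_state_eq {Q : Type} (M : PairMachine Q) {b : ℕ} (hb : 2 ≤ b) (x y : ℝ) (i : ℕ) :
    M.state b x y i = V60.FSP.st (code M b) (V11015.FS.pr b x y) M.start 0 i := by
  induction i with
  | zero => rfl
  | succ i ih =>
    rw [V60.FSP.st_step, ← ih, Nat.zero_add]
    unfold code
    rw [V11015.FS.pr_mod hb, V11015.FS.pr_div hb]
    rfl

theorem pair_errors_eq {Q : Type} [Fintype Q] (M : PairMachine Q) {b : ℕ} (hb : 2 ≤ b) (x y : ℝ)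
    (n : ℕ) : M.errors b x y n =
      V60.FSP.err (code M b) (codeGuess M b) (V11015.FS.pr b x y) M.start 0 n := by
  unfold PairMachine.errors V60.FSP.err
  congr 1
  apply Finset.filter_congr
  intro i _
  rw [pair_state_eq M hb, Nat.zero_add, not_iff_not]
  set q := V60.FSP.st (code M b) (V11015.FS.pr b x y) M.start 0 i
  obtain ⟨hx0, hx1⟩ := V11015.FS.dg_bounds hb x (i + 1)
  obtain ⟨hy0, hy1⟩ := V11015.FS.dg_bounds hb y (i + 1)
  have ex : digit b x (i + 1) = V60.FSP.dg b x (i + 1) := rfl
  have ey : digit b y (i + 1) = V60.FSP.dg b y (i + 1) := rfl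
  rw [ex, ey]
  have hb0 : (0 : ℤ) < b := by omega
  constructor
  · intro h
    unfold codeGuess
    rw [h]
    simp only
    rw [if_pos ⟨hx0, hx1⟩]
    rfl
  · intro h
    unfold codeGuess at h
    split_ifs at h with hc
    · have h1 : ((M.guess q).1 + b * (M.guess q).2) % (b : ℤ) = V60.FSP.dg b x (i + 1) := by
        rw [h]
        exact V11015.FS.pr_mod hb x y (i + 1)
      have h2 : ((M.guess q).1 + b * (M.guess q).2) / (b : ℤ) = V60.FSP.dg b y (i + 1) := by
        rw [h]
        exact V11015.FS.pr_div hb x y (i + 1)
      rw [Int.add_mul_emod_self_left, Int.emod_eq_of_lt hc.1 hc.2] at h1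
      rw [Int.add_mul_ediv_left _ _ hb0.ne', Int.ediv_eq_zero_of_lt hc.1 hc.2, zero_add] at h2
      exact Prod.ext h1 h2
    · exfalso
      unfold V11015.FS.pr at h
      have h3 : 0 ≤ (b : ℤ) * V60.FSP.dg b y (i + 1) := mul_nonneg hb0.le hy0
      have h4 : (0 : ℤ) ≤ b * b := by positivity
      omega

/-- **Finite-state machines cannot predict the digits of both `π + e` and `π - e`.**  For every
`η > 0` there is a constant `C` with the following properties, for all real `t` (for instance
`t = π`).
(1) Let `H ≥ 1`, let `F`, `G` be forms of size at most `H` which are not parallel, let `b, c ≥ 2`,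
and let two machines with `S` and `S'` states read the digits of `F(t)` in base `b` and of `G(t)` in
base `c`. On the first `N` and `N'` digits they make together at least
`(log min (N log b, N' log c) - log (S log b + S' log c + log H)) / log (4 + η) - C`
wrong guesses.
(2) A machine with `S` states which reads the digits of both numbers in the same base `b` makes at
least `(log n - log (S + log H)) / log (2 + η) - C` wrong guesses in the first `n` steps.
(3) The case of `t + e` and `t - e` in (1).
(4) Let `Λ, σ > 0` and `H ≥ 1`. All forms `F` of size at most `H`, whose value at `t` is predicted in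
some base `b` up to some place `N`, `N log b ≥ Λ`, by a machine with `S` states, `S log b ≤ σ`, with
less than half of `(log Λ - log (2 σ + log H)) / log (4 + η) - C` errors, are parallel. -/
theorem result (η : ℝ) (hη : 0 < η) : ∃ C : ℝ, ∀ t : ℝ,
    (∀ H : ℝ, 1 ≤ H → ∀ F G : Form, F.Size H → G.Size H → ¬ F.Parallel G → ∀ b c : ℕ, 2 ≤ b → 2 ≤ c →
      ∀ (Q Q' : Type) [Fintype Q] [Fintype Q'] (M : Machine Q) (M' : Machine Q') (N N' : ℕ),
      1 ≤ N → 1 ≤ N' →
      (Real.log (min (N * Real.log b) (N' * Real.log c)) -
        Real.log (Fintype.card Q * Real.log b + Fintype.card Q' * Real.log c + Real.log H)) /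
        Real.log (4 + η) - C ≤ (M.errors b (F.value t) N + M'.errors c (G.value t) N' : ℝ)) ∧
    (∀ H : ℝ, 1 ≤ H → ∀ F G : Form, F.Size H → G.Size H → ¬ F.Parallel G → ∀ b : ℕ, 2 ≤ b →
      ∀ (Q : Type) [Fintype Q] (M : PairMachine Q) (n : ℕ), 1 ≤ n →
      (Real.log n - Real.log (Fintype.card Q + Real.log H)) / Real.log (2 + η) - C ≤
        M.errors b (F.value t) (G.value t) n) ∧
    (∀ b c : ℕ, 2 ≤ b → 2 ≤ c →
      ∀ (Q Q' : Type) [Fintype Q] [Fintype Q'] (M : Machine Q) (M' : Machine Q') (N N' : ℕ),
      1 ≤ N → 1 ≤ N' →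
      (Real.log (min (N * Real.log b) (N' * Real.log c)) -
        Real.log (Fintype.card Q * Real.log b + Fintype.card Q' * Real.log c)) /
        Real.log (4 + η) - C ≤
        (M.errors b (t + Real.exp 1) N + M'.errors c (t - Real.exp 1) N' : ℝ)) ∧
    (∀ Λ σ H : ℝ, 0 < Λ → 0 < σ → 1 ≤ H → ∀ F G : Form, F.Size H → G.Size H → ∀ b c : ℕ, 2 ≤ b →
      2 ≤ c → ∀ (Q Q' : Type) [Fintype Q] [Fintype Q'] (M : Machine Q) (M' : Machine Q') (N N' : ℕ),
      Λ ≤ N * Real.log b → Λ ≤ N' * Real.log c → Fintype.card Q * Real.log b ≤ σ →
      Fintype.card Q' * Real.log c ≤ σ →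
      (M.errors b (F.value t) N : ℝ) <
        ((Real.log Λ - Real.log (2 * σ + Real.log H)) / Real.log (4 + η) - C) / 2 →
      (M'.errors c (G.value t) N' : ℝ) <
        ((Real.log Λ - Real.log (2 * σ + Real.log H)) / Real.log (4 + η) - C) / 2 →
      F.Parallel G) := by
  obtain ⟨C1, h1⟩ := V11015.FS.two_forms η hη
  obtain ⟨C2, h2⟩ := V11015.FS.joint_forms η hη
  have hl4 : 0 < Real.log (4 + η) := Real.log_pos (by linarith)
  refine ⟨max C1 C2, fun t => ?_⟩
  have p1 : ∀ H : ℝ, 1 ≤ H → ∀ F G : Form, F.Size H → G.Size H → ¬ F.Parallel G → ∀ b c : ℕ, 2 ≤ b →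
      2 ≤ c → ∀ (Q Q' : Type) [Fintype Q] [Fintype Q'] (M : Machine Q) (M' : Machine Q') (N N' : ℕ),
      1 ≤ N → 1 ≤ N' →
      (Real.log (min (N * Real.log b) (N' * Real.log c)) -
        Real.log (Fintype.card Q * Real.log b + Fintype.card Q' * Real.log c + Real.log H)) /
        Real.log (4 + η) - max C1 C2 ≤
        (M.errors b (F.value t) N + M'.errors c (G.value t) N' : ℝ) := by
    intro H hH F G hF hG hne b c hb hc Q Q' _ _ M M' N N' hN hN'
    rw [errors_eq, errors_eq]
    have := h1 t F.a F.r F.s G.a G.r G.s F.d G.d H hH hF.1 hF.2.1 hG.1 hG.2.1 hF.2.2.1 hG.2.2.1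
      hF.2.2.2 hG.2.2.2 hne b c hb hc Q Q' M.next M.guess M.start M'.next M'.guess M'.start N N' hN hN'
    have h3 := le_max_left C1 C2
    change _ ≤ (V60.FSP.err M.next M.guess (V60.FSP.dg b (V11015.FS.val t F.a F.r F.s F.d)) M.start 0 N : ℝ)
      + V60.FSP.err M'.next M'.guess (V60.FSP.dg c (V11015.FS.val t G.a G.r G.s G.d)) M'.start 0 N'
    linarith
  refine ⟨p1, ?_, ?_, ?_⟩
  · intro H hH F G hF hG hne b hb Q _ M n hn
    rw [pair_errors_eq M hb]
    have := h2 t F.a F.r F.s G.a G.r G.s F.d G.d H hH hF.1 hF.2.1 hG.1 hG.2.1 hF.2.2.1 hG.2.2.1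
      hF.2.2.2 hG.2.2.2 hne b hb Q (code M b) (codeGuess M b) M.start n hn
    have h3 := le_max_right C1 C2
    change _ ≤ (V60.FSP.err (code M b) (codeGuess M b)
      (V11015.FS.pr b (V11015.FS.val t F.a F.r F.s F.d) (V11015.FS.val t G.a G.r G.s G.d)) M.start 0 n : ℝ)
    linarith
  · intro b c hb hc Q Q' _ _ M M' N N' hN hN'
    have := p1 1 le_rfl ⟨1, 1, 0, 1⟩ ⟨1, -1, 0, 1⟩ (by norm_num [Form.Size]) (by norm_num [Form.Size])
      (by norm_num [Form.Parallel]) b c hb hc Q Q' M M' N N' hN hN'
    rw [Real.log_one, add_zero] at this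
    have e1 : (Form.value ⟨1, 1, 0, 1⟩ t) = t + Real.exp 1 := by
      unfold Form.value
      norm_num
    have e2 : (Form.value ⟨1, -1, 0, 1⟩ t) = t - Real.exp 1 := by
      unfold Form.value
      norm_num
      ring
    rw [e1, e2] at this
    exact this
  · intro Λ σ H hΛ hσ hH F G hF hG b c hb hc Q Q' _ _ M M' N N' hN hN' hS hS' hM hM'
    by_contra hne
    have hlb := V11015.FS.log_base_pos hb
    have hlc := V11015.FS.log_base_pos hc
    have hNpos : 1 ≤ N := by
      rcases Nat.eq_zero_or_pos N with h | h
      · rw [h, Nat.cast_zero, zero_mul] at hN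
        linarith
      · exact h
    have hNpos' : 1 ≤ N' := by
      rcases Nat.eq_zero_or_pos N' with h | h
      · rw [h, Nat.cast_zero, zero_mul] at hN'
        linarith
      · exact h
    have h3 := p1 H hH F G hF hG hne b c hb hc Q Q' M M' N N' hNpos hNpos'
    have hlH : 0 ≤ Real.log H := Real.log_nonneg hH
    have : Nonempty Q := ⟨M.start⟩
    have hSpos : (1 : ℝ) ≤ Fintype.card Q := by exact_mod_cast Fintype.card_pos (α := Q)
    have hS0 : (0 : ℝ) ≤ Fintype.card Q' := Nat.cast_nonneg _
    have h4 : Real.log Λ ≤ Real.log (min (N * Real.log b) (N' * Real.log c)) :=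
      Real.log_le_log hΛ (le_min hN hN')
    have h5 : Real.log (Fintype.card Q * Real.log b + Fintype.card Q' * Real.log c + Real.log H) ≤
        Real.log (2 * σ + Real.log H) := by
      apply Real.log_le_log
      · have := mul_nonneg hS0 hlc.le
        have := mul_pos (lt_of_lt_of_le one_pos hSpos) hlb
        linarith
      · linarith
    have h6 : (Real.log Λ - Real.log (2 * σ + Real.log H)) / Real.log (4 + η) ≤
        (Real.log (min (N * Real.log b) (N' * Real.log c)) -
        Real.log (Fintype.card Q * Real.log b + Fintype.card Q' * Real.log c + Real.log H)) /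
        Real.log (4 + η) := div_le_div_of_nonneg_right (by linarith) hl4.le
    linarith

end Pool.Agent.Results.MP_363d4d_nt.PredictionSeveralNumbers
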